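import Pool.Agent.V11174.SA.Final

set_option autoImplicit false

/-! # Bounds for the essential self-adjointness threshold `c_n` -/

namespace Pool.Agent.Results.MP_74ce82_an.ThresholdBounds

open Polynomial

/-- The polynomial `D_{2n}(z;c) = z (z-1) ... (z-(2n-1)) + (-1)^n c`. -/
noncomputable def charPoly (n : ℕ) (c : ℝ) : ℂ[X] :=
  (∏ j ∈ Finset.range (2 * n), (X - C (j : ℂ))) + C ((-1) ^ n * (c : ℂ))

/-- The number of roots of `D_{2n}(.;c)`, counted with multiplicity, with real part `> -1/2`. -/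
noncomputable def rightRoots (n : ℕ) (c : ℝ) : ℕ :=
  Multiset.card ((charPoly n c).roots.filter (fun z : ℂ => -(1 / 2 : ℝ) < z.re))

lemma rightRoots_eq (n : ℕ) (c : ℝ) : rightRoots n c = Pool.Agent.V11174.SA.cnt n c := by
  unfold rightRoots Pool.Agent.V11174.SA.cnt
  rw [Multiset.countP_eq_card_filter]
  rfl

/-- For every `n ≥ 1` the set of real `c` for which exactly `n` roots have real part `> -1/2` is a
half-line `[c_n, ∞)` with `c_n > 0`, and `2 n^2 / π < c_n^(1/(2n)) < n / sin (π/(2n))`. -/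
theorem result : ∀ n : ℕ, 1 ≤ n → ∃ cn : ℝ, 0 < cn ∧
    {c : ℝ | rightRoots n c = n} = Set.Ici cn ∧
    2 * (n : ℝ) ^ 2 / Real.pi < cn ^ (1 / (2 * (n : ℝ))) ∧
    cn ^ (1 / (2 * (n : ℝ))) < (n : ℝ) / Real.sin (Real.pi / (2 * n)) := by
  intro n hn
  simp only [rightRoots_eq]
  exact Pool.Agent.V11174.SA.final n hn

end Pool.Agent.Results.MP_74ce82_an.ThresholdBounds
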